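import Pool.Agent.N728.QU.Def
import Pool.Agent.N564.QG.MCP

set_option autoImplicit false

/-! QU/MC: the mean value theorem, uniformly in the constant term (helper136, after helper427 and
helper564). -/

namespace Pool.Agent.N136.QU

open Finset Pool.Agent.N728.QL Pool.Agent.N728.QG Pool.Agent.N728.QU Pool.Agent.N564.QG

/-- the inner sum -/
noncomputable def GU (a σ c : ℤ) (z B T : ℕ) (b : ℤ) : ℝ :=
  ∑ t ∈ Icc 1 T, Eu σ c z B ((t : ℤ) * (a * t + b))

lemma SE_equ (a : ℤ) (G : Polynomial ℤ) (hGa : G = Polynomial.C a * Polynomial.X) (σ c : ℤ)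
    (z K B T : ℕ) (F : ℤ → ℝ)
    (hF : ∀ b, ¬ ((B : ℤ) < b ∧ b ≤ 4 * B) → F b = 0) (hR : Rge G K B T) (hTB : T ≤ K * B)
    (hKB : K * K ≤ B) :
    SE G K (EPu σ c z B) B T F = ∑ b ∈ Ioc (B : ℤ) (4 * B), F b * GU a σ c z B T b := by
  have hs : ∀ u ∈ Icc 1 T, ∑ v ∈ Icc 1 (K * B), F ((v : ℤ) - G.eval (u : ℤ)) * EPu σ c z B (u * v) =
      ∑ b ∈ Ioc (B : ℤ) (4 * B), F b * Eu σ c z B ((u : ℤ) * (a * u + b)) := by
    intro u hu
    rw [mem_Icc] at hu
    obtain ⟨r1, r2⟩ := hR u hu.1 hu.2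
    have hev : G.eval (u : ℤ) = a * u := by
      rw [hGa, Polynomial.eval_mul, Polynomial.eval_C, Polynomial.eval_X]
    obtain ⟨g, hg⟩ : ∃ g, g = a * (u : ℤ) := ⟨_, rfl⟩
    rw [hev, ← hg] at r1 r2
    rw [hev, ← hg]
    have hKBc : ((K * B : ℕ) : ℤ) = (K : ℤ) * B := by push_cast; ring
    have h1 : ∑ v ∈ Icc 1 (K * B), F ((v : ℤ) - g) * EPu σ c z B (u * v) =
        ∑ v ∈ (Icc 1 (K * B)).filter (fun v : ℕ => (B : ℤ) < (v : ℤ) - g ∧ (v : ℤ) - g ≤ 4 * B),
          F ((v : ℤ) - g) * Eu σ c z B ((u : ℤ) * v) := by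
      rw [sum_filter]
      refine sum_congr rfl fun v hv => ?_
      rw [mem_Icc] at hv
      split_ifs with h
      · congr 1
        have h3 : u * v ≤ B ^ 3 := by
          calc u * v ≤ (K * B) * (K * B) := Nat.mul_le_mul (hu.2.trans hTB) hv.2
            _ = (K * K) * (B * B) := by ring
            _ ≤ B * (B * B) := by gcongr
            _ = B ^ 3 := by ring
        unfold EPu Eu
        rw [show (((u * v : ℕ) : ℤ)) = (u : ℤ) * v by push_cast; rfl]
        by_cases h4 : (B : ℤ) ≤ σ * ((u : ℤ) * v) + c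
        · rw [if_pos ⟨h4, h3⟩, if_pos h4]
        · rw [if_neg (fun h => h4 h.1), if_neg h4]
      · rw [hF _ h, zero_mul]
    rw [h1]
    apply Finset.sum_bij' (fun (v : ℕ) _ => (v : ℤ) - g) (fun (b : ℤ) _ => (b + g).toNat)
    · intro v hv
      rw [mem_filter] at hv
      rw [mem_Ioc]
      exact hv.2
    · intro b hb
      rw [mem_Ioc] at hb
      rw [mem_filter, mem_Icc]
      have hpos : 0 < b + g := by omega
      have e : ((b + g).toNat : ℤ) = b + g := Int.toNat_of_nonneg hpos.le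
      refine ⟨⟨by omega, ?_⟩, by omega, by omega⟩
      zify
      rw [e]
      omega
    · intro v hv
      simp
    · intro b hb
      rw [mem_Ioc] at hb
      have hpos : 0 < b + g := by omega
      have e : ((b + g).toNat : ℤ) = b + g := Int.toNat_of_nonneg hpos.le
      rw [e]; ring
    · intro v hv
      congr 2
      ring
  unfold SE
  rw [sum_congr rfl hs, sum_comm]
  refine sum_congr rfl fun b _ => ?_
  unfold GU
  rw [mul_sum]

lemma tame_sg {s0 : ℕ} {c σ : ℤ} (hσ : σ = 1 ∨ σ = -1) (h : Tame s0 c) : Tame s0 (σ * c) := by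
  rcases hσ with rfl | rfl
  · rwa [one_mul]
  · refine ⟨by rw [neg_one_mul]; exact neg_ne_zero.2 h.1, ?_⟩
    rw [neg_one_mul, Int.natAbs_neg]
    exact h.2

lemma natAbs_sg {c σ : ℤ} (hσ : σ = 1 ∨ σ = -1) : (σ * c).natAbs = c.natAbs := by
  rcases hσ with rfl | rfl
  · rw [one_mul]
  · rw [neg_one_mul, Int.natAbs_neg]

/-- **The mean value theorem, uniformly in the constant term.** -/
theorem t_MCu (hAP : ∀ (s0 : ℕ) (a : ℤ), a = 1 ∨ a = -1 → S_AP2u s0 a)
    (hBC : ∀ G : Polynomial ℤ, 1 ≤ G.natDegree → S_BC2 G)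
    (hH4 : ∀ s0, S_H4Pu s0) (hEEB : S_EEBu) (hU0 : S_U0u) (hU1 : ∀ s0, S_U1u s0)
    (hMER : S_MER) (s0 : ℕ) (a : ℤ) (ha : a = 1 ∨ a = -1) : S_MCu s0 a := by
  classical
  have ha0' : a ≠ 0 := by rcases ha with rfl | rfl <;> norm_num
  obtain ⟨Kc, hKc, hb4⟩ := hH4 s0
  obtain ⟨Cm, hCm1, -, hCm⟩ := hMER
  obtain ⟨κ', hκ', heeb⟩ := hEEB
  obtain ⟨CU0, hCU0, k0, BU0, hu0⟩ := hU0 (8 * (1 + 1)) (by omega)
  obtain ⟨CU1, hCU1, k1, BU1, hu1⟩ := hU1 s0 (8 * (1 + 1)) (by omega)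
  obtain ⟨k, hk⟩ : ∃ k, k = max 2 (max k0 k1) := ⟨_, rfl⟩
  have hk2 : 2 ≤ k := by rw [hk]; exact le_max_left _ _
  have hkk0 : k0 ≤ k := by rw [hk]; exact (le_max_left _ _).trans (le_max_right _ _)
  have hkk1 : k1 ≤ k := by rw [hk]; exact (le_max_right _ _).trans (le_max_right _ _)
  have hkr : (2 : ℝ) ≤ k := by exact_mod_cast hk2
  have hlim : Filter.Tendsto (fun N : ℕ => Real.log (N : ℝ)) Filter.atTop Filter.atTop :=
    Real.tendsto_log_atTop.comp tendsto_natCast_atTop_atTop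
  intro K ε δ hK hε hδ
  obtain ⟨zA, hzA⟩ := hAP s0 a ha K (ε / 8) hK (by positivity)
  have hKr : (1 : ℝ) ≤ K := by exact_mod_cast hK
  obtain ⟨G, hGa⟩ : ∃ G : Polynomial ℤ, G = Polynomial.C a * Polynomial.X := ⟨_, rfl⟩
  have hdeg : G.natDegree = 1 := by
    rw [hGa]
    exact Polynomial.natDegree_C_mul_X a ha0'
  -- K V⁻¹ / √z small
  have hsm : ∃ zs : ℕ, ∀ z : ℕ, zs ≤ z → Kc * K * Cm * Real.log z / √(z : ℝ) ≤ ε / 8 := by
    have h1 : Filter.Tendsto (fun x : ℝ => Real.log x / x ^ (1 / 2 : ℝ)) Filter.atTop (nhds 0) :=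
      (isLittleO_log_rpow_atTop (by norm_num : (0 : ℝ) < 1 / 2)).tendsto_div_nhds_zero
    have h2 : Filter.Tendsto (fun N : ℕ => Kc * K * Cm * (Real.log (N : ℝ) / (N : ℝ) ^ (1 / 2 : ℝ)))
        Filter.atTop (nhds (Kc * K * Cm * 0)) :=
      (h1.comp tendsto_natCast_atTop_atTop).const_mul _
    rw [mul_zero] at h2
    have h3 := (h2.eventually (gt_mem_nhds (show (0 : ℝ) < ε / 8 by positivity)))
    obtain ⟨zs, hzs⟩ := Filter.eventually_atTop.1 h3
    refine ⟨zs, fun z hz => ?_⟩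
    have := (hzs z hz).le
    rw [mul_div_assoc, Real.sqrt_eq_rpow]
    exact this
  obtain ⟨zs, hzs⟩ := hsm
  refine ⟨max (max zA zs) (max s0 2), fun z hz => ?_⟩
  have hz1 : zA ≤ z := ((le_max_left _ _).trans (le_max_left _ _)).trans hz
  have hz2 : zs ≤ z := ((le_max_right _ _).trans (le_max_left _ _)).trans hz
  have hz3 : s0 ≤ z := ((le_max_left _ _).trans (le_max_right _ _)).trans hz
  have hz4 : 2 ≤ z := ((le_max_right _ _).trans (le_max_right _ _)).trans hz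
  obtain ⟨q, hq1, hPq, hqz, ηA, hηA, BA, hBA⟩ := hzA z hz1
  obtain ⟨η, hη⟩ : ∃ η, η = min ηA (min (1 / (10 * (K : ℝ))) (δ / (2 * (K : ℝ)))) := ⟨_, rfl⟩
  have hη0 : 0 < η := by rw [hη]; exact lt_min hηA (lt_min (by positivity) (by positivity))
  have hηA' : η ≤ ηA := by rw [hη]; exact min_le_left _ _
  have hηK : η ≤ 1 / (10 * (K : ℝ)) := by rw [hη]; exact (min_le_right _ _).trans (min_le_left _ _)
  have hηδ : η ≤ δ / (2 * (K : ℝ)) := by rw [hη]; exact (min_le_right _ _).trans (min_le_right _ _)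
  have hη1 : η ≤ 1 := by
    refine hηK.trans ?_
    rw [div_le_one (by positivity)]
    linarith
  obtain ⟨α, hα⟩ : ∃ α, α = (κ' * (k : ℝ))⁻¹ := ⟨_, rfl⟩
  have hκk : 0 < κ' * (k : ℝ) := by positivity
  have hα0 : 0 < α := by rw [hα]; exact inv_pos.2 hκk
  have hακ : α * (κ' * (k : ℝ)) = 1 := by rw [hα]; exact inv_mul_cancel₀ hκk.ne'
  have hVpos : 0 < (VW 0 z)⁻¹ := inv_pos.2 (VW_pos 0 z)
  have hz0 : (0 : ℝ) < z := by exact_mod_cast (by omega : 0 < z)
  have hsz : 0 < √(z : ℝ) := Real.sqrt_pos.2 hz0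
  obtain ⟨κ4, hκ4⟩ : ∃ κ4, κ4 = Kc * K * (VW 0 z)⁻¹ / √(z : ℝ) := ⟨_, rfl⟩
  have hκ40 : 0 ≤ κ4 := by rw [hκ4]; positivity
  have hmaxpos : 0 < 2 * max CU0 CU1 := by
    have : 0 < max CU0 CU1 := lt_max_of_lt_left hCU0
    linarith
  obtain ⟨ε', hε', BC, hBCB⟩ := hBC G (by rw [hdeg]) (2 * max CU0 CU1) (α * κ4) (α * (ε / 8)) (η / 2) k K 1 q
    hmaxpos (mul_nonneg hα0.le hκ40) (by positivity) (by positivity) hK hq1
  simp only [hdeg, pow_one] at hBCB
  obtain ⟨B4, hB4B⟩ := hb4 K K 2 q z (α⁻¹ * ε') hK (by omega) hq1 hz4 hz3 (by positivity) hPq hqz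
  obtain ⟨BE, hBE⟩ := heeb k z hk2
  have hVz : (VW 0 z)⁻¹ ≤ Cm * Real.log z := (hCm z hz4).2
  have hKz : κ4 ≤ ε / 8 := by
    rw [hκ4]
    refine le_trans ?_ (hzs z hz2)
    apply div_le_div_of_nonneg_right _ hsz.le
    calc Kc * K * (VW 0 z)⁻¹ ≤ Kc * K * (Cm * Real.log z) := mul_le_mul_of_nonneg_left hVz (by positivity)
      _ = Kc * K * Cm * Real.log z := by ring
  -- largeness of B
  have hqr : (0 : ℝ) < q := by exact_mod_cast hq1
  have hpow : ∃ Bp : ℕ, ∀ B : ℕ, Bp ≤ B → Real.log B ^ 2 * (4 * q / η) ≤ B := by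
    have h1 : Filter.Tendsto (fun x : ℝ => Real.log x ^ 2 / x) Filter.atTop (nhds 0) :=
      Real.isLittleO_pow_log_id_atTop.tendsto_div_nhds_zero
    have hD : 0 < 4 * (q : ℝ) / η := by positivity
    have h3 := ((h1.comp tendsto_natCast_atTop_atTop).eventually
      (gt_mem_nhds (show (0 : ℝ) < 1 / (4 * q / η) by positivity)))
    obtain ⟨Bp, hBp⟩ := Filter.eventually_atTop.1 h3
    refine ⟨max Bp 1, fun B hB => ?_⟩
    have h4 := (hBp B ((le_max_left _ _).trans hB)).le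
    have hB1 : (0 : ℝ) < B := by exact_mod_cast (le_max_right _ _).trans hB
    simp only [Function.comp] at h4
    rw [div_le_div_iff₀ hB1 hD] at h4
    linarith
  obtain ⟨Bp, hBp⟩ := hpow
  obtain ⟨Bl, hBl⟩ := Filter.eventually_atTop.1 (hlim.eventually_ge_atTop 1)
  refine ⟨max (max (max BA BC) (max B4 BE)) (max (max (max BU0 BU1) (max Bp Bl)) (max (max 3 (K * K)) (z ^ k))),
    fun B hB T c σ hc hσ hcB hT1 hTKB hR => ?_⟩
  have b1 : BA ≤ B := ((le_max_left _ _).trans ((le_max_left _ _).trans (le_max_left _ _))).trans hB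
  have b2 : BC ≤ B := ((le_max_right _ _).trans ((le_max_left _ _).trans (le_max_left _ _))).trans hB
  have b3 : B4 ≤ B := ((le_max_left _ _).trans ((le_max_right _ _).trans (le_max_left _ _))).trans hB
  have b4 : BE ≤ B := ((le_max_right _ _).trans ((le_max_right _ _).trans (le_max_left _ _))).trans hB
  have b5 : BU0 ≤ B := ((le_max_left _ _).trans ((le_max_left _ _).trans ((le_max_left _ _).trans
    (le_max_right _ _)))).trans hB
  have b6 : BU1 ≤ B := ((le_max_right _ _).trans ((le_max_left _ _).trans ((le_max_left _ _).trans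
    (le_max_right _ _)))).trans hB
  have b7 : Bp ≤ B := ((le_max_left _ _).trans ((le_max_right _ _).trans ((le_max_left _ _).trans
    (le_max_right _ _)))).trans hB
  have b8 : Bl ≤ B := ((le_max_right _ _).trans ((le_max_right _ _).trans ((le_max_left _ _).trans
    (le_max_right _ _)))).trans hB
  have b9 : 3 ≤ B := ((le_max_left _ _).trans ((le_max_left _ _).trans ((le_max_right _ _).trans
    (le_max_right _ _)))).trans hB
  have b10 : K * K ≤ B := ((le_max_right _ _).trans ((le_max_left _ _).trans ((le_max_right _ _).trans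
    (le_max_right _ _)))).trans hB
  have b11 : z ^ k ≤ B := ((le_max_right _ _).trans ((le_max_right _ _).trans (le_max_right _ _))).trans hB
  rw [← hGa] at hR
  have hBr : (3 : ℝ) ≤ B := by exact_mod_cast b9
  have hB0 : (0 : ℝ) < B := by linarith
  have hc3 : c.natAbs ≤ B ^ 3 := by
    have hKB : K ≤ B := (Nat.le_mul_self K).trans b10
    calc c.natAbs ≤ K * B ^ 2 := hcB
      _ ≤ B * B ^ 2 := Nat.mul_le_mul_right _ hKB
      _ = B ^ 3 := by ring
  have hc3' : (σ * c).natAbs ≤ B ^ 3 := by rwa [natAbs_sg hσ]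
  have hl := hBl B b8
  have hp := hBp B b7
  have hT1' := hT1
  obtain ⟨L, hL⟩ : ∃ L, L = Real.log (B : ℝ) := ⟨_, rfl⟩
  rw [← hL] at hl hp hT1
  have hL0 : 0 < L := by linarith
  -- T is large
  have hTbig : L * (4 * (q : ℝ) / η) ≤ (T : ℝ) := by
    have h4 : (L * (4 * (q : ℝ) / η)) * L ≤ (T : ℝ) * L := by
      calc (L * (4 * (q : ℝ) / η)) * L = L ^ 2 * (4 * q / η) := by ring
        _ ≤ B := hp
        _ ≤ _ := hT1
    exact le_of_mul_le_mul_right h4 hL0
  have hq4 : (1 : ℝ) ≤ 4 * q / η := by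
    rw [le_div_iff₀ hη0]
    have h3 : (1 : ℝ) ≤ q := by exact_mod_cast hq1
    linarith
  have hT4 : 4 * (q : ℝ) / η ≤ (T : ℝ) := by
    refine le_trans ?_ hTbig
    exact le_mul_of_one_le_left (by positivity) hl
  have hTL : L ≤ T := by
    refine le_trans ?_ hTbig
    exact le_mul_of_one_le_right hL0.le hq4
  have hBTe : B ≤ T ^ 2 := by
    have h1 : (B : ℝ) ≤ (T : ℝ) ^ 2 := by
      calc (B : ℝ) ≤ (T : ℝ) * L := hT1
        _ ≤ (T : ℝ) * T := mul_le_mul_of_nonneg_left hTL (Nat.cast_nonneg T)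
        _ = (T : ℝ) ^ 2 := by ring
    exact_mod_cast h1
  have hTe0 : (0 : ℝ) < (T : ℝ) := lt_of_lt_of_le (by positivity) hT4
  have hTKBr : (T : ℝ) ≤ K * B := by exact_mod_cast hTKB
  -- the cells
  obtain ⟨h, hh⟩ : ∃ h, h = ⌊η * (T : ℝ) / q⌋₊ := ⟨_, rfl⟩
  have hh1 : (h : ℝ) ≤ η * (T : ℝ) / q := by rw [hh]; exact Nat.floor_le (by positivity)
  have hh2 : η * (T : ℝ) / q < h + 1 := by rw [hh]; exact Nat.lt_floor_add_one _
  have h4 : 4 ≤ η * (T : ℝ) / q := by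
    rw [le_div_iff₀ hqr]
    rw [div_le_iff₀ hη0] at hT4
    linarith
  have hhpos : 1 ≤ h := by
    have : (3 : ℝ) < h := by linarith
    exact_mod_cast (by linarith : (1 : ℝ) ≤ h)
  obtain ⟨H, hH⟩ : ∃ H, H = q * h := ⟨_, rfl⟩
  have hHr : (H : ℝ) = q * h := by rw [hH]; push_cast; ring
  have hH1 : (H : ℝ) ≤ η * (T : ℝ) := by
    rw [hHr]
    rw [le_div_iff₀ hqr] at hh1
    linarith
  have hH2 : η / 2 * (T : ℝ) ≤ H := by
    rw [hHr]
    have h5 : η * (T : ℝ) / q / 2 ≤ h := by linarith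
    rw [div_div, div_le_iff₀ (by positivity)] at h5
    linarith
  have hHB : 10 * H ≤ B := by
    have h6 : (H : ℝ) ≤ 1 / (10 * (K : ℝ)) * (K * B) :=
      hH1.trans (mul_le_mul hηK hTKBr hTe0.le (by positivity))
    have h7 : 1 / (10 * (K : ℝ)) * (K * B) = B / 10 := by
      have : (K : ℝ) ≠ 0 := by positivity
      field_simp
    rw [h7] at h6
    have h8 : 10 * (H : ℝ) ≤ B := by linarith
    exact_mod_cast h8
  have hHδ : (H : ℝ) ≤ δ / 2 * B := by
    have h6 : (H : ℝ) ≤ δ / (2 * (K : ℝ)) * (K * B) :=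
      hH1.trans (mul_le_mul hηδ hTKBr hTe0.le (by positivity))
    refine h6.trans (le_of_eq ?_)
    have : (K : ℝ) ≠ 0 := by positivity
    field_simp
  have hHηA : (H : ℝ) ≤ ηA * (T : ℝ) :=
    hH1.trans (mul_le_mul_of_nonneg_right hηA' hTe0.le)
  have hHpos : 1 ≤ H := by rw [hH]; exact Nat.mul_pos hq1 hhpos
  have hHz : (0 : ℤ) < (H : ℤ) := by exact_mod_cast hHpos
  -- the sign function
  set F : ℤ → ℝ := fun b => if (1 + δ) * (B : ℝ) ≤ b ∧ b ≤ 4 * B then
    (if 0 ≤ GU a σ c z B T b then 1 else -1) else 0 with hF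
  have hF1 : ∀ b, |F b| ≤ 1 := by
    intro b
    simp only [hF]
    split_ifs <;> norm_num
  have hF3 : ∀ b : ℤ, ¬ ((1 + δ) * (B : ℝ) ≤ b ∧ b ≤ 4 * B) → F b = 0 := by
    intro b hb
    simp only [hF]
    rw [if_neg hb]
  have hF2 : ∀ b, ¬ ((B : ℤ) < b ∧ b ≤ 4 * B) → F b = 0 := by
    intro b hb
    apply hF3
    rintro ⟨h5, h6⟩
    apply hb
    refine ⟨?_, h6⟩
    have h7 : (B : ℝ) < b := by nlinarith
    exact_mod_cast h7
  have havA : Adm5 (av F q h) B := by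
    refine ⟨av_bd hF1 hq1 hhpos, fun b hb => ?_⟩
    unfold av
    rw [div_eq_zero_iff]
    left
    apply sum_eq_zero
    intro b' hb'
    rw [mem_filter, ← hH, mem_Ico] at hb'
    have h5 := (mem_cell hHz b (b / H)).2 rfl
    rw [mem_Ico] at h5
    apply hF3
    rintro ⟨h13, h14⟩
    have h12 : (b / (H : ℤ) + 1) * H = b / H * H + H := by ring
    have h15 : b' - H < b := by omega
    have h16 : ((b' - H : ℤ) : ℝ) < b := by exact_mod_cast h15
    push_cast at h16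
    have h17 : (B : ℝ) < b := by nlinarith
    have h18 : (B : ℤ) < b := by exact_mod_cast h17
    omega
  have h0A : Adm5 (fun b => (F b - av F q h b) / 2) B := by
    refine ⟨fun b => ?_, fun b hb => ?_⟩
    · rw [abs_div, abs_of_pos (by norm_num : (0 : ℝ) < 2), div_le_one (by norm_num)]
      have h5 := abs_sub (F b) (av F q h b)
      have h6 := hF1 b
      have h7 := havA.1 b
      linarith
    · simp only
      rw [hF2 b (by omega), havA.2 b hb]
      norm_num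
  -- stage A
  have sA := hBA B b1 T H c σ (fun b => (F b - av F q h b) / 2) hc hc3 hσ hBTe hTKB (hGa ▸ hR)
    (by rw [hH]; exact dvd_mul_right q h) hHpos hHηA (by omega) h0A (by
      rw [hH]
      exact av_zero hq1 hhpos)
  rw [← hGa] at sA
  -- stages B and C
  obtain ⟨z1, hz1a, hz1b⟩ := root_ex k B (by omega) (by omega)
  obtain ⟨hz12, hEb⟩ := hBE B b4 c σ hσ hc3 z1 hz1a hz1b
  have hz1k0 : z1 ^ k0 ≤ B := (Nat.pow_le_pow_right (by omega) hkk0).trans hz1a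
  have hz1k1 : z1 ^ k1 ≤ B := (Nat.pow_le_pow_right (by omega) hkk1).trans hz1a
  have hzk0 : z ^ k0 ≤ B := (Nat.pow_le_pow_right (by omega) hkk0).trans b11
  have hzk1 : z ^ k1 ≤ B := (Nat.pow_le_pow_right (by omega) hkk1).trans b11
  have hcs := tame_sg hσ hc
  have w0 : U0b (2 * max CU0 CU1) k B (8 * (1 + 1)) (NN (σ * c) z z1) :=
    U0b_add (U0b_mono (le_max_left _ _) hkk0 (hu0 B b5 (σ * c) hcs.1 hc3' z1 hz12 hz1k0))
      (U0b_mono (le_max_left _ _) hkk0 (hu0 B b5 (σ * c) hcs.1 hc3' z hz4 hzk0))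
  have w1 : U1b (2 * max CU0 CU1) k B (8 * (1 + 1)) (NN (σ * c) z z1) :=
    U1b_add (U1b_mono (le_max_right _ _) hkk1 (hu1 B b6 (σ * c) hcs hc3' z1 hz12 hz1k1))
      (U1b_mono (le_max_right _ _) hkk1 (hu1 B b6 (σ * c) hcs hc3' z hz4 hzk1))
  have hEW : ∀ n, |α * EPu σ c z B n| ≤ NN (σ * c) z z1 n := by
    intro n
    rw [abs_mul, abs_of_pos hα0]
    calc α * |EPu σ c z B n| ≤ α * (κ' * k * NN (σ * c) z z1 n) :=
          mul_le_mul_of_nonneg_left (hEb n) hα0.le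
      _ = (α * (κ' * k)) * NN (σ * c) z z1 n := by ring
      _ = NN (σ * c) z z1 n := by rw [hακ, one_mul]
  have hcT : (c.natAbs : ℝ) ≤ K * ((B : ℝ) * T) * Real.log B := by
    have h5 : (c.natAbs : ℝ) ≤ K * (B : ℝ) ^ 2 := by exact_mod_cast hcB
    calc (c.natAbs : ℝ) ≤ K * (B : ℝ) ^ 2 := h5
      _ = K * (B : ℝ) * B := by ring
      _ ≤ K * (B : ℝ) * (T * Real.log B) := mul_le_mul_of_nonneg_left hT1' (by positivity)
      _ = _ := by ring
  have hH4 : H4 (α * κ4) ε' q K B T (fun n => α * EPu σ c z B n) := by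
    have h5 := hB4B B b3 T c σ hc hσ hBTe hTKB hcT
    rw [← hκ4] at h5
    have h6 := H4_smul hα0.le h5
    have h7 : α * (α⁻¹ * ε') = ε' := by
      rw [← mul_assoc, mul_inv_cancel₀ hα0.ne', one_mul]
    rw [h7] at h6
    exact h6
  have sB := hBCB B b2 (NN (σ * c) z z1) (fun n => α * EPu σ c z B n) hEW w0 w1 T H (av F q h) hT1'
    hTKB hR hH4 (by rw [hH]; exact dvd_mul_right q h) hH2 hHB havA (by
      rw [hH]
      exact av_const)
  rw [SE_smul, abs_mul, abs_of_pos hα0] at sB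
  have sB' : |SE G K (EPu σ c z B) B T (av F q h)| ≤ (κ4 + ε / 8) * ((B : ℝ) * T) := by
    have h5 : α * |SE G K (EPu σ c z B) B T (av F q h)| ≤ α * ((κ4 + ε / 8) * ((B : ℝ) * T)) := by
      refine sB.trans (le_of_eq ?_)
      ring
    exact le_of_mul_le_mul_left h5 hα0
  have eF := SE_add G K (EPu σ c z B) B T F (fun b => (F b - av F q h b) / 2) (av F q h) (fun b => by ring)
  have eS := SE_equ a G hGa σ c z K B T F hF2 hR hTKB b10
  have habs : ∑ b ∈ (Ioc B (4 * B)).filter (fun b : ℕ => (1 + δ) * (B : ℝ) ≤ (b : ℝ)),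
      |∑ t ∈ Icc 1 T, Eu σ c z B ((t : ℤ) * (a * t + b))| = SE G K (EPu σ c z B) B T F := by
    rw [eS, sum_filter]
    apply Finset.sum_bij (fun (b : ℕ) _ => (b : ℤ))
    · intro b hb
      rw [mem_Ioc] at hb ⊢
      omega
    · intro x _ x' _ hx
      exact_mod_cast hx
    · intro b hb
      rw [mem_Ioc] at hb
      exact ⟨b.toNat, by rw [mem_Ioc]; omega, by omega⟩
    · intro b hb
      rw [mem_Ioc] at hb
      have hb4 : (b : ℤ) ≤ 4 * B := by omega
      simp only [hF]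
      by_cases hbδ : (1 + δ) * (B : ℝ) ≤ (b : ℝ)
      · rw [if_pos hbδ, if_pos ⟨by exact_mod_cast hbδ, hb4⟩]
        show |GU a σ c z B T b| = _
        split_ifs with hg
        · rw [abs_of_nonneg hg, one_mul]
        · rw [abs_of_neg (not_le.1 hg), neg_one_mul]
      · rw [if_neg hbδ, if_neg (fun h => hbδ (by exact_mod_cast h.1)), zero_mul]
  rw [habs, eF]
  have hBT0 : 0 ≤ (B : ℝ) * T := by positivity
  have h5 := (le_abs_self _).trans sA
  have h6 := (le_abs_self _).trans sB'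
  have h7 : (κ4 + ε / 8) * ((B : ℝ) * T) ≤ (ε / 8 + ε / 8) * (B * T) := by
    apply mul_le_mul_of_nonneg_right _ hBT0
    linarith
  have h8 : ε * ((B : ℝ) * T) = 2 * (ε / 8 * (B * T)) + (ε / 8 + ε / 8) * (B * T) + ε / 2 * (B * T) := by ring
  rw [h8]
  have h9 : 0 ≤ ε / 2 * ((B : ℝ) * T) := by positivity
  linarith

end Pool.Agent.N136.QU
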